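import Pool.Agent.W525.CB.Stm

/-!
# CB-FF: the fields of fractions of the charts
-/

set_option autoImplicit false

namespace Pool.Agent.W214.CB

open Pool.Agent.W525.CB

theorem main : S_FF := by
  intro n k E _ _ _ _ _ _ x y hn h
  have nx := h.dat.nx
  have nu := h.dat.nu
  have h01 : (0 : Fin (n + 3)) ≠ 1 := by
    intro h
    have := congrArg Fin.val h
    simp at this
  constructor
  · intro σ
    have hσ : σ 0 ≠ σ 1 := fun h => h01 (σ.injective h)
    apply le_antisymm
    · rw [IntermediateField.adjoin_le_iff]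
      have hr : ∀ i, x i / x 0 ∈ FX k x y := fun i =>
        IntermediateField.subset_adjoin k _ (Or.inl ⟨i, rfl⟩)
      have hy : ∀ i, y i ∈ FX k x y := fun i =>
        IntermediateField.subset_adjoin k _ (Or.inr ⟨i, rfl⟩)
      have hv : ∀ a b, (x a / x 0) ^ 2 * y b - (x b / x 0) ^ 2 * y a ∈ FX k x y := fun a b =>
        sub_mem (mul_mem (pow_mem (hr a) 2) (hy b)) (mul_mem (pow_mem (hr b) 2) (hy a))
      have hu : ∀ a b, uu x y a b = x 0 ^ 2 * ((x a / x 0) ^ 2 * y b - (x b / x 0) ^ 2 * y a) := by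
        intro a b
        have := nx 0
        unfold uu
        field_simp
      rintro e (⟨i, rfl⟩ | ⟨i, rfl⟩)
      · change x (σ i) / x (σ 0) ∈ FX k x y
        rw [← div_div_div_cancel_right₀ (nx 0) (x (σ i)) (x (σ 0))]
        exact div_mem (hr _) (hr _)
      · change uu x y (σ 0) (σ i) / uu x y (σ 0) (σ 1) ∈ FX k x y
        rw [hu, hu, mul_div_mul_left _ _ (pow_ne_zero 2 (nx 0))]
        exact div_mem (hv _ _) (hv _ _)
    · obtain ⟨K, hK⟩ : ∃ K, K = IntermediateField.adjoin k
        (Set.range (ss x σ) ∪ Set.range (tt x y σ)) := ⟨_, rfl⟩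
      rw [← hK]
      unfold FX
      rw [IntermediateField.adjoin_le_iff]
      have hs : ∀ i, x i / x (σ 0) ∈ K := by
        intro i
        rw [hK]
        refine IntermediateField.subset_adjoin k _ (Or.inl ⟨σ.symm i, ?_⟩)
        unfold ss
        rw [Equiv.apply_symm_apply]
      have ht : ∀ i, uu x y (σ 0) i / uu x y (σ 0) (σ 1) ∈ K := by
        intro i
        rw [hK]
        refine IntermediateField.subset_adjoin k _ (Or.inr ⟨σ.symm i, ?_⟩)
        unfold tt
        rw [Equiv.apply_symm_apply]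
      have hU : ∀ i, uu x y 0 i / uu x y (σ 0) (σ 1) ∈ K := by
        intro i
        have e : uu x y 0 i / uu x y (σ 0) (σ 1) =
            (x 0 / x (σ 0)) ^ 2 * (uu x y (σ 0) i / uu x y (σ 0) (σ 1)) -
            (x i / x (σ 0)) ^ 2 * (uu x y (σ 0) 0 / uu x y (σ 0) (σ 1)) := by
          have h1 := nu (σ 0) (σ 1) hσ
          have h2 := nx (σ 0)
          obtain ⟨w, hw⟩ : ∃ w, w = uu x y (σ 0) (σ 1) := ⟨_, rfl⟩
          rw [← hw] at h1 ⊢
          unfold uu
          field_simp
          ring
        rw [e]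
        exact sub_mem (mul_mem (pow_mem (hs _) 2) (ht _)) (mul_mem (pow_mem (hs _) 2) (ht _))
      rintro e (⟨i, rfl⟩ | ⟨i, rfl⟩)
      · change x i / x 0 ∈ K
        rw [← div_div_div_cancel_right₀ (nx (σ 0)) (x i) (x 0)]
        exact div_mem (hs _) (hs _)
      · have h1 := nu (σ 0) (σ 1) hσ
        have e : y i = (uu x y 0 i / uu x y (σ 0) (σ 1)) / (uu x y 0 1 / uu x y (σ 0) (σ 1)) := by
          rw [div_div_div_cancel_right₀ h1]
          unfold uu
          rw [h.y0, h.y1]
          have := nx 0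
          field_simp
          ring
        rw [e]
        exact div_mem (hU _) (hU _)
  · intro σ
    apply le_antisymm
    · rw [IntermediateField.adjoin_le_iff]
      have hr : ∀ i, x i / x 0 ∈ FZ k x := fun i =>
        IntermediateField.subset_adjoin k _ ⟨i, rfl⟩
      rintro e ⟨i, rfl⟩
      change x (σ i) / x (σ 0) ∈ FZ k x
      rw [← div_div_div_cancel_right₀ (nx 0) (x (σ i)) (x (σ 0))]
      exact div_mem (hr _) (hr _)
    · obtain ⟨K, hK⟩ : ∃ K, K = IntermediateField.adjoin k (Set.range (ss x σ)) := ⟨_, rfl⟩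
      rw [← hK]
      unfold FZ
      rw [IntermediateField.adjoin_le_iff]
      have hs : ∀ i, x i / x (σ 0) ∈ K := by
        intro i
        rw [hK]
        refine IntermediateField.subset_adjoin k _ ⟨σ.symm i, ?_⟩
        unfold ss
        rw [Equiv.apply_symm_apply]
      rintro e ⟨i, rfl⟩
      change x i / x 0 ∈ K
      rw [← div_div_div_cancel_right₀ (nx (σ 0)) (x i) (x 0)]
      exact div_mem (hs _) (hs _)

end Pool.Agent.W214.CB
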